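import Pool.Agent.H50.PQ3

namespace Pool.Agent.Results.MP_83d7ff_an.Plq

open Set Filter Topology Matrix

/-- Polynomials of degree at most two. -/
def IsQuad {n : ℕ} (q : (Fin n → ℝ) → ℝ) : Prop :=
  ∃ (Q : Matrix (Fin n) (Fin n) ℝ) (b : Fin n → ℝ) (c : ℝ),
    ∀ x, q x = 1 / 2 * (x ⬝ᵥ Q *ᵥ x) + b ⬝ᵥ x + c

/-- Intersections of finitely many closed half-spaces. -/
def IsPolyhedron {n : ℕ} (P : Set (Fin n → ℝ)) : Prop :=
  ∃ (r : ℕ) (a : Fin r → Fin n → ℝ) (β : Fin r → ℝ), (∀ j, a j ≠ 0) ∧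
    P = {x | ∀ j, a j ⬝ᵥ x ≤ β j}

def IsPQ {n : ℕ} (f : (Fin n → ℝ) → ℝ) : Prop :=
  Continuous f ∧ ∃ (m : ℕ) (q : Fin m → (Fin n → ℝ) → ℝ), (∀ i, IsQuad (q i)) ∧
    ∀ x, ∃ i, f x = q i x

def IsPLQ {n : ℕ} (f : (Fin n → ℝ) → ℝ) : Prop :=
  Continuous f ∧ ∃ (m : ℕ) (q : Fin m → (Fin n → ℝ) → ℝ) (P : Fin m → Set (Fin n → ℝ)),
    (∀ i, IsQuad (q i)) ∧ (∀ i, IsPolyhedron (P i)) ∧ ⋃ i, P i = univ ∧
      ∀ i, ∀ x ∈ P i, f x = q i x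

/-- `df` is the semiderivative at `x` and `g` is half the second semiderivative. -/
def TwiceSemidiffAt {n : ℕ} (f : (Fin n → ℝ) → ℝ) (x : Fin n → ℝ) : Prop :=
  ∃ df g : (Fin n → ℝ) → ℝ,
    (∀ v, Tendsto (fun p : (Fin n → ℝ) × ℝ => (f (x + p.2 • p.1) - f x) / p.2)
      (𝓝 v ×ˢ 𝓝[>] 0) (𝓝 (df v))) ∧
    ∀ w, Tendsto (fun p : (Fin n → ℝ) × ℝ => (f (x + p.2 • p.1) - f x - p.2 * df p.1) / p.2 ^ 2)
      (𝓝 w ×ˢ 𝓝[>] 0) (𝓝 (g w))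

open Pool.Agent.H50.PQ

lemma quad_qd {n : ℕ} {q : (Fin n → ℝ) → ℝ} (h : IsQuad q) : ∃ r : Qd (Fin n → ℝ), r.ev = q := by
  obtain ⟨Q, b, c, h⟩ := h
  refine ⟨⟨(1 / 2 : ℝ) • (Matrix.toLinearMap₂' ℝ Q).toContinuousBilinearMap,
    LinearMap.toContinuousLinearMap (dotProductBilin ℝ ℝ b), c⟩, funext fun x => ?_⟩
  rw [h x]
  simp [Qd.ev, Matrix.toLinearMap₂'_apply']

lemma poly {n : ℕ} {J : Type} [Finite J] (a : J → (Fin n → ℝ) →L[ℝ] ℝ) (β : J → ℝ)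
    (h : ∀ j, a j ≠ 0) : IsPolyhedron {x | ∀ j, a j x ≤ β j} := by
  obtain ⟨r, ⟨e⟩⟩ := Finite.exists_equiv_fin J
  have key : ∀ j x, (fun i => a j (Pi.single i 1)) ⬝ᵥ x = a j x := fun j x => by
    conv_rhs => rw [pi_eq_sum_univ' x]
    simp [dotProduct, map_sum, mul_comm]
  refine ⟨r, fun j i => a (e.symm j) (Pi.single i 1), fun j => β (e.symm j), fun j h0 => ?_, ?_⟩
  · refine h (e.symm j) (ContinuousLinearMap.ext fun x => ?_)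
    rw [← key]
    have h1 : (fun i => a (e.symm j) (Pi.single i 1)) = 0 := h0
    rw [h1]; simp
  · ext x
    simp only [mem_setOf_eq, key]
    exact ⟨fun hx j => hx _, fun hx j => by simpa using hx (e j)⟩

theorem result (n : ℕ) (f : (Fin n → ℝ) → ℝ) (hf : IsPQ f) (hd : ∀ x, TwiceSemidiffAt f x) :
    IsPLQ f := by
  obtain ⟨hc, m, q, hq, hs⟩ := hf
  have h1 : ∀ g : range q, IsQuad g.1 := by
    rintro ⟨_, i, rfl⟩; exact hq i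
  choose r hr using fun g : range q => quad_qd (h1 g)
  obtain ⟨ι, _, k, P, hP, hU, hk⟩ := core (q := r) hc
    (fun x => (hs x).elim fun i hi => ⟨⟨q i, i, rfl⟩, by rw [hr]; exact hi⟩) hd
    (fun k l hkl => by
      by_contra hn
      push Not at hn
      refine hkl (Subtype.ext (funext fun x => ?_))
      have := hn x
      rwa [df_ev, hr, hr, sub_eq_zero] at this)
  obtain ⟨s, ⟨e⟩⟩ := Finite.exists_equiv_fin ι
  refine ⟨hc, s, fun i => (k (e.symm i)).1, fun i => P (e.symm i), fun i => h1 _, fun i => ?_, ?_,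
    fun i x hx => (hk _ x hx).trans (congrFun (hr _) x)⟩
  · obtain ⟨J, _, a, β, h2, h3⟩ := hP (e.symm i)
    simp only [h3]
    exact poly a β h2
  · rw [← hU]
    exact e.symm.surjective.iUnion_comp P

end Pool.Agent.Results.MP_83d7ff_an.Plq
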